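import Pool.Agent.MWK.Stmts

/-!
Sufficiency of `K`: the fully invariant congruences above `K` satisfy the modular law.
-/

set_option autoImplicit false

namespace Pool.Agent.MWK.H24

open Pool.Agent.Helper14_MV Pool.Agent.Helper2_MV

theorem mod_ (hc : ChaStmt) : ModStmt := by
  intro β hβ ρ σ τ h1 h2 _ _ u v huv ht
  have k1 : Kc ρ := ⟨h1 _ _ hβ.g, h1 _ _ hβ.e, h1 _ _ hβ.c⟩
  have k2 : Kc σ := ⟨h2 _ _ hβ.g, h2 _ _ hβ.e, h2 _ _ hβ.c⟩
  rcases hc ρ σ k1 k2 with h | h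
  · have h3 : σ.r u v := FIC.sup_le h (FIC.le_refl' σ) _ _ huv
    exact FIC.le_sup_right _ _ _ _ ⟨h3, ht⟩
  · have h3 : ρ.r u v := FIC.sup_le (FIC.le_refl' ρ) h _ _ huv
    exact FIC.le_sup_left _ _ _ _ h3

end Pool.Agent.MWK.H24
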