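import Pool.Agent.MWK.Stmts

/-!
Monotonicity of `Ok`.
-/

set_option autoImplicit false

namespace Pool.Agent.MWK.H24

theorem okm : OkmStmt := by
  intro qs
  induction qs with
  | nil =>
    intro A A' p p' _ _ _
    exact trivial
  | cons q qs ih =>
    intro A A' p p' h hA hp
    have h1 : (∀ z ∈ p, 2 ≤ (A ++ q).count z) ∧ Ok (A ++ q) q qs := h
    have hq : ∀ l, (A ++ q).count l ≤ (A' ++ q).count l := by
      intro l
      rw [List.count_append, List.count_append]
      exact Nat.add_le_add_right (hA l) _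
    have h2 : (∀ z ∈ p', 2 ≤ (A' ++ q).count z) ∧ Ok (A' ++ q) q qs :=
      ⟨fun z hz => (h1.1 z (hp z hz)).trans (hq z), ih _ _ _ _ h1.2 hq fun z hz => hz⟩
    exact h2

end Pool.Agent.MWK.H24
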